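import Pool.Graph.R_pool_sql_team_seeded_2aa45f1a.Results.MP_3400ab_nt.UpperBound

/-!
# The shape of the integers with a unique minimal generalized Markoff triple

If `m > 1` has exactly one minimal triple, then `m = 3 a² + 3 a³`, or `m` is in exactly one way a sum
of two positive squares and `m = s² n` with `n = 1`, `n = 2`, `n = p` or `n = 2 p` for a prime
`p ≡ 1 (mod 4)`.  The numbers of this shape up to `x` are `O(x / log x)`.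
-/

set_option autoImplicit false

namespace Pool.Agent.Results.MP_3400ab_nt.ShapeOfMembers

open Pool.Agent.Results.MP_3400ab_nt.UpperBound Real

/-- `m = s² n` with `n = 1`, `n = 2`, `n = p` or `n = 2 p` for a prime `p ≡ 1 (mod 4)` -/
def Form (m : ℕ) : Prop :=
  ∃ s n : ℕ, m = s ^ 2 * n ∧
    (n = 1 ∨ n = 2 ∨ ∃ p : ℕ, p.Prime ∧ p % 4 = 1 ∧ (n = p ∨ n = 2 * p))

/-- the integers `m > 1` that are of the form `3 a² + 3 a³`, or of the form `s² n` with `n = 1`, `2`,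
`p`, `2 p`, `p ≡ 1 (mod 4)` a prime -/
def V : Set ℕ := {m | 1 < m ∧ ((∃ a : ℕ, m = 3 * a ^ 2 + 3 * a ^ 3) ∨ Form m)}

theorem Form.small {m : ℕ} (h : Form m) : ∃ s n : ℕ, m = s ^ 2 * n ∧ Small n := by
  obtain ⟨s, n, h1, h2⟩ := h
  refine ⟨s, n, h1, ?_⟩
  rcases h2 with h2 | h2 | ⟨p, hp, -, h2 | h2⟩
  · exact Or.inl h2
  · exact Or.inr (Or.inl h2)
  · exact Or.inr (Or.inr (Or.inl (h2 ▸ hp)))
  · exact Or.inr (Or.inr (Or.inr ⟨p, hp, h2⟩))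

theorem mod_four {m s p k : ℕ} (hm0 : m ≠ 0) (hp : p.Prime) (hp2 : p ≠ 2)
    (hrep : ∃ x y : ℕ, m = x ^ 2 + y ^ 2) (hk : k = 1 ∨ k = 2) (hm : m = s ^ 2 * (k * p)) :
    p % 4 = 1 := by
  have hodd : p % 2 = 1 := by
    rcases hp.eq_two_or_odd with h | h
    · exact absurd h hp2
    · exact h
  by_contra h1
  have h3 : p % 4 = 3 := by omega
  have hE := (Nat.eq_sq_add_sq_iff.1 hrep) p
    (Nat.mem_primeFactors.2 ⟨hp, hm ▸ Dvd.dvd.mul_left (Dvd.intro_left k rfl) _, hm0⟩) h3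
  have : Fact p.Prime := ⟨hp⟩
  have hs : s ≠ 0 := by
    rintro rfl
    simp at hm
    exact hm0 hm
  have hk0 : k ≠ 0 := by omega
  have hkv : padicValNat p k = 0 := by
    apply padicValNat.eq_zero_of_not_dvd
    intro hd
    have := Nat.le_of_dvd (by omega) hd
    have := hp.two_le
    omega
  rw [hm, padicValNat.mul (pow_ne_zero 2 hs) (Nat.mul_ne_zero hk0 hp.ne_zero),
    padicValNat.mul hk0 hp.ne_zero, padicValNat.pow, padicValNat.self hp.one_lt, hkv] at hE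
  rw [Nat.even_iff] at hE
  omega

theorem form_of_rep {m : ℕ} (h : UniqueRep m) : Form m := by
  obtain ⟨s, n, hsn, hn⟩ := uniqueRep_small h
  obtain ⟨a, b, ha, -, hm, -⟩ := h
  have hm0 : m ≠ 0 := by
    have : 0 < a ^ 2 := by positivity
    omega
  rcases hn with hn | hn | hn | ⟨p, hp, hn⟩
  · exact ⟨s, n, hsn, Or.inl hn⟩
  · exact ⟨s, n, hsn, Or.inr (Or.inl hn)⟩
  · by_cases h2 : n = 2
    · exact ⟨s, n, hsn, Or.inr (Or.inl h2)⟩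
    · exact ⟨s, n, hsn, Or.inr (Or.inr ⟨n, hn, mod_four hm0 hn h2 ⟨a, b, hm.symm⟩ (Or.inl rfl)
        (by rw [hsn]; ring), Or.inl rfl⟩)⟩
  · by_cases h2 : p = 2
    · refine ⟨2 * s, 1, ?_, Or.inl rfl⟩
      rw [hsn, hn, h2]
      ring
    · exact ⟨s, n, hsn, Or.inr (Or.inr ⟨p, hp, mod_four hm0 hp h2 ⟨a, b, hm.symm⟩ (Or.inr rfl)
        (by rw [hsn, hn]), Or.inr hn⟩)⟩

theorem V_sub (N m : ℕ) (hm : m ∈ V) (hmN : m ≤ N) : m ∈ cover N := by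
  have hm1 : 1 < m := hm.1
  have hsq : ∀ s k : ℕ, m = s ^ 2 * k → 1 ≤ s ∧ s ≤ Nat.sqrt N ∧ 1 ≤ k ∧ k ≤ N / s ^ 2 := by
    intro s k h
    have hs : 0 < s := by
      rcases Nat.eq_zero_or_pos s with h0 | h0
      · subst h0; simp at h; omega
      · exact h0
    have hk : 0 < k := by
      rcases Nat.eq_zero_or_pos k with h0 | h0
      · subst h0; simp at h; omega
      · exact h0
    refine ⟨hs, ?_, hk, ?_⟩
    · rw [Nat.le_sqrt]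
      calc s * s = s ^ 2 * 1 := by ring
        _ ≤ s ^ 2 * k := Nat.mul_le_mul_left _ hk
        _ ≤ N := by omega
    · rw [Nat.le_div_iff_mul_le (by positivity)]
      rw [mul_comm]
      omega
  unfold cover
  simp only [Finset.mem_union, Finset.mem_image, Finset.mem_Icc, Finset.mem_biUnion,
    Finset.mem_filter]
  rcases hm.2 with ⟨a, ha⟩ | h
  · left
    have ha' : m = a ^ 2 * (3 + 3 * a) := by rw [ha]; ring
    obtain ⟨h1, h2, -, -⟩ := hsq a (3 + 3 * a) ha'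
    exact ⟨a, ⟨h1, h2⟩, ha.symm⟩
  · right
    obtain ⟨s, n, hsn, hn⟩ := h.small
    obtain ⟨h1, h2, h3, h4⟩ := hsq s n hsn
    rcases hn with hn | hn | hn | ⟨p, hp, hn⟩
    · left
      exact ⟨s, ⟨h1, h2⟩, by rw [hsn, hn]⟩
    · right; left
      exact ⟨s, ⟨h1, h2⟩, by rw [hsn, hn]⟩
    · right; right
      exact ⟨s, ⟨h1, h2⟩, Or.inl ⟨n, ⟨⟨h3, h4⟩, hn⟩, hsn.symm⟩⟩
    · right; right
      refine ⟨s, ⟨h1, h2⟩, Or.inr ⟨p, ⟨⟨hp.one_lt.le, ?_⟩, hp⟩, by rw [hsn, hn]⟩⟩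
      omega

theorem count : ∃ C : ℝ, ∀ x : ℝ, 2 ≤ x →
    ({m : ℕ | m ∈ V ∧ (m : ℝ) ≤ x}.Finite) ∧
    (({m : ℕ | m ∈ V ∧ (m : ℝ) ≤ x}.ncard : ℕ) : ℝ) ≤ C * x / log x := by
  obtain ⟨C, hC, hS⟩ := sum_bound
  refine ⟨6 + 2 * C, fun x hx => ?_⟩
  have hx0 : 0 ≤ x := by linarith
  have hsub : {m : ℕ | m ∈ V ∧ (m : ℝ) ≤ x} ⊆ (cover ⌊x⌋₊ : Set ℕ) := by
    rintro m ⟨hm, hmx⟩
    exact V_sub _ _ hm (Nat.le_floor hmx)
  have hfin := (cover ⌊x⌋₊).finite_toSet.subset hsub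
  refine ⟨hfin, ?_⟩
  have h1 : {m : ℕ | m ∈ V ∧ (m : ℝ) ≤ x}.ncard ≤ (cover ⌊x⌋₊).card := by
    rw [← Set.ncard_coe_finset]
    exact Set.ncard_le_ncard hsub (cover ⌊x⌋₊).finite_toSet
  have h2 := h1.trans (cover_card ⌊x⌋₊)
  have h3 : (({m : ℕ | m ∈ V ∧ (m : ℝ) ≤ x}.ncard : ℕ) : ℝ) ≤ 3 * (Nat.sqrt ⌊x⌋₊ : ℝ) +
      2 * ∑ s ∈ Finset.Icc 1 (Nat.sqrt ⌊x⌋₊), (Nat.primeCounting (⌊x⌋₊ / s ^ 2) : ℝ) := by
    exact_mod_cast h2
  refine h3.trans ?_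
  have hlx : 0 < log x := Real.log_pos (by linarith)
  have h4 : (Nat.sqrt ⌊x⌋₊ : ℝ) ≤ √x := by
    refine Real.le_sqrt_of_sq_le ?_
    have h5 : Nat.sqrt ⌊x⌋₊ * Nat.sqrt ⌊x⌋₊ ≤ ⌊x⌋₊ := Nat.sqrt_le _
    have h6 : ((Nat.sqrt ⌊x⌋₊ * Nat.sqrt ⌊x⌋₊ : ℕ) : ℝ) ≤ ⌊x⌋₊ := by exact_mod_cast h5
    have h7 := Nat.floor_le hx0
    push_cast at h6
    nlinarith
  have h5 : √x ≤ 2 * x / log x := by
    rw [le_div_iff₀ hlx]
    have h6 := log_le_two_sqrt (show 1 ≤ x by linarith)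
    have h7 : √x * √x = x := Real.mul_self_sqrt hx0
    have h8 : 0 ≤ √x := Real.sqrt_nonneg x
    nlinarith
  calc 3 * (Nat.sqrt ⌊x⌋₊ : ℝ) +
      2 * ∑ s ∈ Finset.Icc 1 (Nat.sqrt ⌊x⌋₊), (Nat.primeCounting (⌊x⌋₊ / s ^ 2) : ℝ)
      ≤ 3 * (2 * x / log x) + 2 * (C * x / log x) := by
        gcongr
        · exact h4.trans h5
        · exact hS x hx
    _ = (6 + 2 * C) * x / log x := by ring


/-- **The shape of the members of `U`**, and the number of integers of this shape up to `x`, which is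
`O(x / log x)`. -/
theorem result :
    (∀ m ∈ U, (∃ a : ℕ, m = 3 * a ^ 2 + 3 * a ^ 3) ∨ (UniqueRep m ∧ Form m)) ∧ U ⊆ V ∧
    ∃ C : ℝ, ∀ x : ℝ, 2 ≤ x → ({m : ℕ | m ∈ V ∧ (m : ℝ) ≤ x}.Finite) ∧
      (({m : ℕ | m ∈ V ∧ (m : ℝ) ≤ x}.ncard : ℕ) : ℝ) ≤ C * x / log x := by
  have h1 : ∀ m ∈ U, (∃ a : ℕ, m = 3 * a ^ 2 + 3 * a ^ 3) ∨ (UniqueRep m ∧ Form m) := by
    intro m hm
    rcases mem_U hm with h | h
    · exact Or.inl h
    · exact Or.inr ⟨h, form_of_rep h⟩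
  refine ⟨h1, fun m hm => ⟨hm.1, ?_⟩, count⟩
  rcases h1 m hm with h | h
  · exact Or.inl h
  · exact Or.inr h.2

end Pool.Agent.Results.MP_3400ab_nt.ShapeOfMembers
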